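import Pool.Agent.R354.SSC

/-!
# A strictly singular non-compact composition operator

There is a Banach space E of analytic functions on the open unit disc such that the composition
operator with symbol z ^ 2 is bounded on E, strictly singular and not compact.
-/

namespace Pool.Agent.Results.MP_628ecd_an.SquareSymbol

open Metric

/-- The open unit disc. -/
abbrev Disc : Type := ball (0 : ℂ) 1

/-- The normed space `E`, whose elements are identified with functions on the disc by the linear
map `ev`, is a Banach space of analytic functions on the disc: `ev` is injective (so `E` is a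
vector space of functions), every function is analytic on the disc, `E` is complete, and all point
evaluations are bounded (continuous). -/
structure IsBanachSpaceOfAnalyticFunctions (E : Type) [NormedAddCommGroup E] [NormedSpace ℂ E]
    (ev : E →ₗ[ℂ] (Disc → ℂ)) : Prop where
  injective : Function.Injective ev
  analytic : ∀ f : E, ∃ F : ℂ → ℂ, AnalyticOnNhd ℂ F (ball 0 1) ∧ ∀ z : Disc, ev f z = F z
  complete : CompleteSpace E
  evaluation : ∀ z : Disc, ∃ C : ℝ, ∀ f : E, ‖ev f z‖ ≤ C * ‖f‖

/-- Strictly singular: not bounded below on any closed infinite-dimensional subspace. -/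
def StrictlySingular {E : Type} [NormedAddCommGroup E] [NormedSpace ℂ E] (T : E →L[ℂ] E) : Prop :=
  ∀ M : Submodule ℂ E, IsClosed (M : Set E) → ¬ FiniteDimensional ℂ M →
    ∀ c : ℝ, 0 < c → ¬ ∀ x ∈ M, c * ‖x‖ ≤ ‖T x‖

/-- There are a Banach space `E` of analytic functions on the disc and an analytic self-map `φ` of
the disc (namely `φ z = z ^ 2`) such that the composition operator `f ↦ f ∘ φ` is a bounded
operator on `E` which is strictly singular but not compact. -/
theorem result :
    ∃ (E : Type) (_ : NormedAddCommGroup E) (_ : NormedSpace ℂ E) (ev : E →ₗ[ℂ] (Disc → ℂ))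
      (φ : Disc → Disc) (T : E →L[ℂ] E),
      IsBanachSpaceOfAnalyticFunctions E ev ∧
      (∀ z : Disc, (φ z : ℂ) = (z : ℂ) ^ 2) ∧
      (∀ (f : E) (z : Disc), ev (T f) z = ev f (φ z)) ∧
      StrictlySingular T ∧ ¬ IsCompactOperator T := by
  have hφ : ∀ z : Disc, (z : ℂ) ^ 2 ∈ ball (0 : ℂ) 1 := by
    intro z
    have hz : ‖(z : ℂ)‖ < 1 := mem_ball_zero_iff.mp z.2
    rw [mem_ball_zero_iff, norm_pow]
    nlinarith [norm_nonneg (z : ℂ)]
  refine ⟨Pool.Agent.R354.SSC.Esp, inferInstance, inferInstance, Pool.Agent.R354.SSC.evL,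
    fun z => ⟨(z : ℂ) ^ 2, hφ z⟩, Pool.Agent.R354.SSC.T, ⟨?_, ?_, inferInstance, ?_⟩,
    fun z => rfl, ?_, ?_, Pool.Agent.R354.SSC.T_not_compact⟩
  · rw [← LinearMap.ker_eq_bot, LinearMap.ker_eq_bot']
    intro f hf
    exact Pool.Agent.R354.SSC.fn_inj f fun z hz => congrFun hf ⟨z, hz⟩
  · intro f
    exact ⟨Pool.Agent.R354.SSC.fn f, Pool.Agent.R354.SSC.fn_analytic f, fun z => rfl⟩
  · intro z
    exact Pool.Agent.R354.SSC.fn_bound (mem_ball_zero_iff.mp z.2)
  · intro f z
    exact Pool.Agent.R354.SSC.fn_T f z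
  · intro M _ hM c hc hcon
    obtain ⟨f, hf, hlt⟩ := Pool.Agent.R354.SSC.T_strictlySingular M hM c hc
    exact absurd (hcon f hf) (not_le.mpr hlt)

end Pool.Agent.Results.MP_628ecd_an.SquareSymbol
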